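import Mathlib

/-!
# The field `K_q = 𝔽_q((t⁻¹))`, the unit ball, and counterexamples to the `t`-adic Littlewood
conjecture with a growth function

`K_q` is Mathlib's field of Laurent series `LaurentSeries F` whose variable is `X = t⁻¹`; thus the
coefficient of `t^m` in `Φ` is `Φ.coeff (-m)` and `deg Φ = -Φ.order` for `Φ ≠ 0`.
-/

namespace Pool.Agent.X123.TLC

open Polynomial

variable {F : Type*} [Field F]

/-- The absolute value `|Φ| = q ^ deg Φ`, `|0| = 0`, with `q` the cardinality of `F`. -/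
noncomputable def absv (Φ : LaurentSeries F) : ℝ :=
  open Classical in if Φ = 0 then 0 else (Nat.card F : ℝ) ^ (-Φ.order)

/-- The embedding `𝔽_q[t] → K_q`, sending the polynomial variable to `t = X⁻¹`. -/
noncomputable def ofPoly : F[X] →+* LaurentSeries F :=
  Polynomial.eval₂RingHom HahnSeries.C (HahnSeries.single (-1) 1)

/-- The fractional part `⟨Φ⟩`: the sum of the terms of `Φ` in negative powers of `t`, that is, in
positive powers of `X = t⁻¹`. -/
noncomputable def fracPart (Φ : LaurentSeries F) : LaurentSeries F where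
  coeff n := if 0 < n then Φ.coeff n else 0
  isPWO_support' := Φ.isPWO_support.mono fun n hn => by
    rw [Function.mem_support] at hn
    by_contra h
    apply hn
    rw [HahnSeries.mem_support, not_not] at h
    simp [h]

variable (F) in
/-- `𝕀`: the series `∑_{i ≥ 1} s_i t^{-i}`. -/
def Ball : Type _ := {Θ : LaurentSeries F // ∀ n : ℤ, n ≤ 0 → Θ.coeff n = 0}

theorem absv_zero : absv (0 : LaurentSeries F) = 0 := by simp [absv]

theorem absv_of_ne {Φ : LaurentSeries F} (h : Φ ≠ 0) : absv Φ = (Nat.card F : ℝ) ^ (-Φ.order) := by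
  simp [absv, h]

theorem absv_nonneg (Φ : LaurentSeries F) : 0 ≤ absv Φ := by
  unfold absv
  split_ifs
  · exact le_rfl
  · positivity

theorem absv_neg (Φ : LaurentSeries F) : absv (-Φ) = absv Φ := by
  by_cases h : Φ = 0
  · simp [h]
  · rw [absv_of_ne h, absv_of_ne (neg_ne_zero.2 h), HahnSeries.order_neg]

variable [Finite F]

theorem two_le_card : 2 ≤ Nat.card F := Finite.one_lt_card

theorem one_lt_cast : (1 : ℝ) < Nat.card F := by exact_mod_cast two_le_card (F := F)

theorem absv_pos {Φ : LaurentSeries F} (h : Φ ≠ 0) : 0 < absv Φ := by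
  rw [absv_of_ne h]
  have := one_lt_cast (F := F)
  positivity

/-- if the coefficients below `m` vanish, then `|Φ| ≤ q^{-m}` -/
theorem absv_le {Φ : LaurentSeries F} {m : ℤ} (h : ∀ n < m, Φ.coeff n = 0) :
    absv Φ ≤ (Nat.card F : ℝ) ^ (-m) := by
  have hq := one_lt_cast (F := F)
  rcases eq_or_ne Φ 0 with h0 | h0
  · rw [h0, absv_zero]; positivity
  · rw [absv_of_ne h0]
    apply zpow_le_zpow_right₀ hq.le
    have : m ≤ Φ.order := by
      by_contra hcon
      push Not at hcon
      exact h0 (HahnSeries.coeff_order_eq_zero.1 (h _ hcon))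
    linarith

theorem absv_add_le (Φ Ψ : LaurentSeries F) : absv (Φ + Ψ) ≤ max (absv Φ) (absv Ψ) := by
  rcases eq_or_ne Φ 0 with h0 | h0
  · simp [h0]
  rcases eq_or_ne Ψ 0 with h1 | h1
  · simp [h1]
  have hq := one_lt_cast (F := F)
  have h2 : absv (Φ + Ψ) ≤ (Nat.card F : ℝ) ^ (-(min Φ.order Ψ.order)) := by
    apply absv_le
    intro n hn
    rw [HahnSeries.coeff_add, HahnSeries.coeff_eq_zero_of_lt_order (lt_of_lt_of_le hn (min_le_left _ _)),
      HahnSeries.coeff_eq_zero_of_lt_order (lt_of_lt_of_le hn (min_le_right _ _)), add_zero]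
  refine h2.trans ?_
  rw [absv_of_ne h0, absv_of_ne h1]
  rcases min_choice Φ.order Ψ.order with h | h <;> rw [h]
  · exact le_max_left _ _
  · exact le_max_right _ _

/-- `𝕀` with the metric `|Θ - Φ|`. -/
noncomputable instance : MetricSpace (Ball F) where
  dist Θ Φ := absv (Θ.1 - Φ.1)
  dist_self Θ := by
    show absv (Θ.1 - Θ.1) = 0
    rw [sub_self, absv_zero]
  dist_comm Θ Φ := by
    show absv (Θ.1 - Φ.1) = absv (Φ.1 - Θ.1)
    rw [← absv_neg, neg_sub]
  dist_triangle Θ Φ Ψ := by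
    show absv (Θ.1 - Ψ.1) ≤ absv (Θ.1 - Φ.1) + absv (Φ.1 - Ψ.1)
    have h := absv_add_le (Θ.1 - Φ.1) (Φ.1 - Ψ.1)
    rw [sub_add_sub_cancel] at h
    exact h.trans (max_le_add_of_nonneg (absv_nonneg _) (absv_nonneg _))
  eq_of_dist_eq_zero {Θ Φ} h := by
    by_contra hne
    have h1 : Θ.1 - Φ.1 ≠ 0 := fun h2 => hne (Subtype.ext (sub_eq_zero.1 h2))
    exact (absv_pos h1).ne' h

theorem dist_def (Θ Φ : Ball F) : dist Θ Φ = absv (Θ.1 - Φ.1) := rfl

/-- `M_q(f)`: the set of counterexamples `Θ ∈ 𝕀` to the `t`-adic Littlewood conjecture with growth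
function `f`. The function `f` is given by its values `f k` at `q ^ k`, and
`inf_{N ≠ 0} f(|N|) |N| |N|_t |⟨N Θ⟩| > 0`, where `|N| = q ^ N.natDegree` and `|N|_t = q ^ (-v)`,
with `v = N.natTrailingDegree` the exponent of the largest power of `t` dividing `N`. -/
def M (f : ℕ → ℝ) : Set (Ball F) :=
  {Θ | 0 < ⨅ N : {N : F[X] // N ≠ 0}, f N.1.natDegree * (Nat.card F : ℝ) ^ N.1.natDegree *
    ((Nat.card F : ℝ) ^ N.1.natTrailingDegree)⁻¹ * absv (fracPart (ofPoly N.1 * Θ.1))}

/-- The growth function `log^{1+λ}`: `f_λ(q^k) = k^{1+λ}` for `k ≥ 1` and `f_λ(1) = 1`. -/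
noncomputable def growth (lam : ℝ) (k : ℕ) : ℝ := if k = 0 then 1 else (k : ℝ) ^ (1 + lam)

end Pool.Agent.X123.TLC
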