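import Pool.Agent.X123.TLC.Massey

/-!
# The tree of sequences with slowly growing potential
-/

namespace Pool.Agent.X123.TLC

open Finset

variable {F : Type*}

theorem res_add (s : ℕ → F) (a b : ℕ) :
    PiNat.res s (a + b) = List.ofFn (fun i : Fin b => s (a + b - 1 - i)) ++ PiNat.res s a := by
  induction b with
  | zero => simp
  | succ b ih =>
    rw [← add_assoc, PiNat.res_succ, ih, List.ofFn_succ]
    simp only [Fin.val_zero, Fin.val_succ, List.cons_append, Nat.sub_zero, Nat.add_sub_cancel]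
    congr 2
    congr 1
    funext i
    congr 1
    omega

section

variable [Field F] [Fintype F]

/-- states -/
def st {B M : ℕ} (ch : List F → Fin M → (Fin B → F)) (x : ℕ → Fin M) : ℕ → List F
  | 0 => []
  | m + 1 => List.ofFn (ch (st ch x m) (x m)) ++ st ch x m

/-- the sequence coded by `x` -/
def sq {B M : ℕ} (hB : 0 < B) (ch : List F → Fin M → (Fin B → F)) (x : ℕ → Fin M) (n : ℕ) : F :=
  ch (st ch x (n / B)) (x (n / B)) ⟨B - 1 - n % B, by omega⟩

omit [Field F] [Fintype F] in
theorem st_length {B M : ℕ} (ch : List F → Fin M → (Fin B → F)) (x : ℕ → Fin M) (m : ℕ) :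
    (st ch x m).length = m * B := by
  induction m with
  | zero => simp [st]
  | succ m ih => simp [st, ih]; ring

omit [Field F] [Fintype F] in
theorem res_sq {B M : ℕ} (hB : 0 < B) (ch : List F → Fin M → (Fin B → F)) (x : ℕ → Fin M)
    (m : ℕ) : PiNat.res (sq hB ch x) (m * B) = st ch x m := by
  induction m with
  | zero => simp [st]
  | succ m ih =>
    rw [Nat.succ_mul, res_add, ih, st]
    congr 1
    congr 1
    funext i
    have hi := i.isLt
    have h1 : m * B + B - 1 - (i : ℕ) = m * B + (B - 1 - i) := by omega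
    have h2 : (m * B + (B - 1 - (i : ℕ))) / B = m := by
      rw [Nat.add_comm, Nat.add_mul_div_right _ _ hB, Nat.div_eq_of_lt (by omega), zero_add]
    have h3 : (m * B + (B - 1 - (i : ℕ))) % B = B - 1 - i := by
      rw [Nat.add_comm, Nat.add_mul_mod_self_right, Nat.mod_eq_of_lt (by omega)]
    simp only [sq, h1, h2, h3]
    congr 1
    ext
    simp
    omega

omit [Field F] [Fintype F] in
theorem sq_agree {B M : ℕ} (hB : 0 < B) (ch : List F → Fin M → (Fin B → F))
    (hch : ∀ l, Function.Injective (ch l)) (x y : ℕ → Fin M) (n : ℕ)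
    (h : ∀ i < n, sq hB ch x i = sq hB ch y i) : ∀ m < n / B, x m = y m := by
  intro m hm
  have h1 : (m + 1) * B ≤ n := by
    calc (m + 1) * B ≤ (n / B) * B := Nat.mul_le_mul_right _ hm
      _ ≤ n := Nat.div_mul_le_self n B
  have h2 : st ch x (m + 1) = st ch y (m + 1) := by
    rw [← res_sq hB, ← res_sq hB]
    rw [PiNat.res_eq_res]
    intro i hi
    exact h i (by omega)
  rw [st, st] at h2
  have h3 := List.append_inj h2 (by simp)
  have h4 := List.ofFn_injective h3.1
  rw [h3.2] at h4
  exact hch _ h4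

/-- The tree. -/
theorem exists_tree {θ : ℝ} (hθ : 1 ≤ θ) (hq : θ ≤ Fintype.card F) {B M : ℕ} (hB : 0 < B)
    (h4 : 4 * θ ^ B ≤ (Fintype.card F : ℝ) ^ B) (hM : 2 * M ≤ Fintype.card F ^ B) :
    ∃ S : (ℕ → Fin M) → (ℕ → F),
      (∀ x y n, (∀ i < n, S x i = S y i) → ∀ m < n / B, x m = y m) ∧
      ∀ x m, Phi θ (PiNat.res (S x) (m * B)) ≤ 4 * B * (B + 2) * (m + 1) := by
  classical
  have hch : ∀ l : List F, ∃ f : Fin M → (Fin B → F), Function.Injective f ∧
      ∀ i, f i ∈ good θ B l := by
    intro l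
    have h1 := card_good hθ hq l B
    have h2 : M ≤ (good θ B l).card := by
      have : (2 * M : ℝ) ≤ (Fintype.card F : ℝ) ^ B := by exact_mod_cast hM
      have h3 : (M : ℝ) ≤ (good θ B l).card := by linarith
      exact_mod_cast h3
    have h5 : Fintype.card (Fin M) ≤ Fintype.card (good θ B l) := by
      rw [Fintype.card_fin, Fintype.card_coe]; exact h2
    obtain ⟨e⟩ := Function.Embedding.nonempty_of_card_le h5
    exact ⟨fun i => (e i : Fin B → F), fun i j hij => e.injective (Subtype.ext hij),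
      fun i => (e i).2⟩
  choose ch hinj hgood using hch
  refine ⟨sq hB ch, fun x y n h m hm => sq_agree hB ch hinj x y n h m hm, fun x m => ?_⟩
  rw [res_sq]
  have hq1 : (1 : ℝ) ≤ Fintype.card F := hθ.trans hq
  induction m with
  | zero =>
    simp only [st, Phi_nil]
    positivity
  | succ m ih =>
    rw [st]
    exact Phi_step hB hq1 h4 le_rfl hθ (st_length ch x m) ih (hgood _ _)

end

section Window

variable [Field F]

theorem res_getD (s : ℕ → F) (e i : ℕ) (hi : i < e) :
    (PiNat.res s e).getD i 0 = s (e - 1 - i) := by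
  induction e generalizing i with
  | zero => omega
  | succ e ih =>
    rw [PiNat.res_succ]
    cases i with
    | zero => simp
    | succ i =>
      rw [List.getD_cons_succ, ih i (by omega)]
      congr 1
      omega

/-- A polynomial annihilating a stretch of the sequence bounds a linear complexity. -/
theorem lc_window (s : ℕ → F) (N : Polynomial F) (hN : N ≠ 0) (j₀ e : ℕ)
    (hj : ∀ j < j₀, N.sum (fun i a => a * s (i + j)) = 0) (he : e ≤ N.natDegree + j₀)
    (hk : N.natTrailingDegree ≤ e) :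
    lc ((PiNat.res s e).take (e - N.natTrailingDegree))
      ≤ N.natDegree - N.natTrailingDegree := by
  set n := N.natDegree with hn
  set k := N.natTrailingDegree with hkk
  have hkn : k ≤ n := Polynomial.natTrailingDegree_le_natDegree N
  have hlead : N.coeff n ≠ 0 := by
    rw [hn]; exact Polynomial.leadingCoeff_ne_zero.2 hN
  apply lc_le
  refine ⟨fun i => N.coeff (n - i) / N.coeff n, by simp [div_self hlead], fun j hjl => ?_⟩
  have hlen : ((PiNat.res s e).take (e - k)).length = e - k := by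
    rw [List.length_take, PiNat.res_length]; omega
  rw [hlen] at hjl
  have h1 := hj (e - 1 - j - n) (by omega)
  rw [Polynomial.sum_over_range' _ (by simp) (n + 1) (Nat.lt_succ_self _)] at h1
  -- drop the vanishing low coefficients
  have h2 : ∑ a ∈ range (n + 1), N.coeff a * s (a + (e - 1 - j - n))
      = ∑ i ∈ range (n - k + 1), N.coeff (n - i) * s ((n - i) + (e - 1 - j - n)) := by
    rw [← Finset.sum_range_reflect]
    have : n - k + 1 ≤ n + 1 := by omega
    rw [← Finset.sum_subset (Finset.range_subset_range.2 this)]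
    · refine Finset.sum_congr rfl fun i hi => ?_
      rw [show n + 1 - 1 - i = n - i by omega]
    · intro i hi hi'
      rw [Finset.mem_range] at hi hi'
      rw [Polynomial.coeff_eq_zero_of_lt_natTrailingDegree (by omega), zero_mul]
  rw [h2] at h1
  have h3 : ∀ i ∈ range (n - k + 1), N.coeff (n - i) / N.coeff n *
      ((PiNat.res s e).take (e - k)).getD (j + i) 0
      = (N.coeff n)⁻¹ * (N.coeff (n - i) * s ((n - i) + (e - 1 - j - n))) := by
    intro i hi
    rw [Finset.mem_range] at hi
    have h4 : ((PiNat.res s e).take (e - k)).getD (j + i) 0 = (PiNat.res s e).getD (j + i) 0 := by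
      rw [List.getD_eq_getElem?_getD, List.getD_eq_getElem?_getD, List.getElem?_take_of_lt]
      omega
    rw [h4, res_getD _ _ _ (by omega), show e - 1 - (j + i) = (n - i) + (e - 1 - j - n) by omega]
    ring
  rw [Finset.sum_congr rfl h3, ← Finset.mul_sum, h1, mul_zero]

end Window

section Bound

variable [Field F]

theorem pow_window_le {θ A : ℝ} (hθ : 1 ≤ θ) (hA : 1 ≤ A) {B : ℕ} (hB : 0 < B) (s : ℕ → F)
    (hs : ∀ m : ℕ, Phi θ (PiNat.res s (m * B)) ≤ A * (m + 1))
    (N : Polynomial F) (hN : N ≠ 0) (j₀ : ℕ)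
    (hj : ∀ j < j₀, N.sum (fun i a => a * s (i + j)) = 0) :
    θ ^ (j₀ - (N.natDegree - N.natTrailingDegree) - B) ≤ A * (N.natDegree + j₀ + 1) := by
  set n := N.natDegree with hn
  set k := N.natTrailingDegree with hkk
  have hkn : k ≤ n := Polynomial.natTrailingDegree_le_natDegree N
  set m := (n + j₀) / B with hm
  have hm1 : m * B ≤ n + j₀ := Nat.div_mul_le_self _ _
  have hm2 : n + j₀ < m * B + B := by
    have := Nat.lt_div_mul_add (a := n + j₀) hB
    rwa [← hm] at this
  have hm3 : m ≤ n + j₀ := Nat.div_le_self _ _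
  have hm4 : (m : ℝ) ≤ n + j₀ := by exact_mod_cast hm3
  have hA0 : 0 ≤ A := by linarith
  have hfin : A * ((m : ℝ) + 1) ≤ A * (n + j₀ + 1) :=
    mul_le_mul_of_nonneg_left (by linarith) hA0
  rcases Nat.lt_or_ge k (m * B) with h | h
  · have h1 := lc_window s N hN j₀ (m * B) hj hm1 h.le
    rw [← hn, ← hkk] at h1
    have h2 : wt θ ((PiNat.res s (m * B)).take (m * B - k)) ≤ Phi θ (PiNat.res s (m * B)) := by
      have := wt_le_Phi hθ (PiNat.res s (m * B)) (k := m * B - k - 1)
        (by rw [PiNat.res_length]; omega)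
      rwa [show m * B - k - 1 + 1 = m * B - k by omega] at this
    have h3 : θ ^ (j₀ - (n - k) - B) ≤ wt θ ((PiNat.res s (m * B)).take (m * B - k)) := by
      rw [wt]
      apply pow_le_pow_right₀ hθ
      rw [List.length_take, PiNat.res_length]
      omega
    exact h3.trans (h2.trans ((hs m).trans hfin))
  · have h1 : j₀ - (n - k) - B = 0 := by omega
    rw [h1, pow_zero]
    have : (1 : ℝ) ≤ A * ((m : ℝ) + 1) := by
      have : (0 : ℝ) ≤ m := Nat.cast_nonneg m
      nlinarith
    linarith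

/-- the linear term is absorbed. -/
theorem absorb {θ A : ℝ} (hθ : 1 < θ) (hA : 0 ≤ A) :
    ∃ D : ℝ, 0 ≤ D ∧ ∀ x : ℕ, A * x ≤ θ ^ x / 2 + D := by
  have h1 := tendsto_pow_const_div_const_pow_of_one_lt 1 hθ
  have h2 : Filter.Tendsto (fun n : ℕ => A * ((n : ℝ) ^ 1 / θ ^ n)) Filter.atTop (nhds (A * 0)) :=
    h1.const_mul A
  rw [mul_zero] at h2
  have h3 := h2.eventually (gt_mem_nhds (show (0 : ℝ) < 1 / 2 by norm_num))
  rw [Filter.eventually_atTop] at h3
  obtain ⟨n₀, hn₀⟩ := h3
  refine ⟨A * n₀, by positivity, fun x => ?_⟩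
  have hpos : 0 < θ ^ x := by positivity
  rcases Nat.lt_or_ge x n₀ with h | h
  · have : (x : ℝ) ≤ n₀ := by exact_mod_cast h.le
    have := mul_le_mul_of_nonneg_left this hA
    linarith
  · have := hn₀ x h
    rw [pow_one, ← mul_div_assoc, div_lt_iff₀ hpos] at this
    have : 0 ≤ A * n₀ := by positivity
    linarith

theorem key_bound {θ A lam q : ℝ} (hθ : 1 < θ) (hA : 1 ≤ A) {B : ℕ} (hB : 0 < B)
    (hlam : 0 < lam) (hq : θ ^ (1 + lam) = q) :
    ∃ C : ℝ, 0 < C ∧ ∀ (s : ℕ → F) (_ : ∀ m : ℕ, Phi θ (PiNat.res s (m * B)) ≤ A * (m + 1))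
      (N : Polynomial F) (_ : N ≠ 0) (j₀ : ℕ)
      (_ : ∀ j < j₀, N.sum (fun i a => a * s (i + j)) = 0),
      q ^ j₀ ≤ C * (if N.natDegree = 0 then 1 else (N.natDegree : ℝ) ^ (1 + lam)) *
        q ^ (N.natDegree - N.natTrailingDegree) := by
  obtain ⟨D, hD0, hD⟩ := absorb hθ (show 0 ≤ A by linarith)
  have hq1 : 1 < q := by rw [← hq]; exact Real.one_lt_rpow hθ (by linarith)
  set E : ℝ := 2 * (A * (2 + B + 1) + D) with hE
  have hE0 : 0 < E := by positivity
  refine ⟨q ^ B * (1 + E ^ (1 + lam)), by positivity, fun s hs N hN j₀ hj => ?_⟩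
  have h := pow_window_le hθ.le hA hB s hs N hN j₀ hj
  set n := N.natDegree with hn
  set k := N.natTrailingDegree with hkk
  have hkn : k ≤ n := Polynomial.natTrailingDegree_le_natDegree N
  set n₁ : ℝ := if n = 0 then 1 else (n : ℝ) with hn₁
  have hn1 : 1 ≤ n₁ := by
    rw [hn₁]
    split_ifs with h0
    · exact le_rfl
    · exact_mod_cast Nat.one_le_iff_ne_zero.2 h0
  have hnn : (n : ℝ) ≤ n₁ := by
    rw [hn₁]
    split_ifs with h0
    · simp [h0]
    · exact le_rfl
  have hf : (if n = 0 then (1 : ℝ) else (n : ℝ) ^ (1 + lam)) = n₁ ^ (1 + lam) := by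
    rw [hn₁]
    split_ifs with h0
    · simp
    · rfl
  rw [hf]
  have hf1 : 1 ≤ n₁ ^ (1 + lam) := Real.one_le_rpow hn1 (by linarith)
  set x := j₀ - (n - k) - B with hx
  have hjx : j₀ ≤ x + (n - k) + B := by omega
  have hqx : q ^ x ≤ (1 + E ^ (1 + lam)) * n₁ ^ (1 + lam) := by
    rcases Nat.eq_zero_or_pos x with h0 | h0
    · rw [h0, pow_zero]
      have : 0 ≤ E ^ (1 + lam) := by positivity
      nlinarith
    · have h1 : (n : ℝ) + j₀ + 1 ≤ (2 + B + 1) * n₁ + x := by
        have : j₀ = x + (n - k) + B := by omega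
        have h2 : (j₀ : ℝ) ≤ x + n + B := by
          have : j₀ ≤ x + n + B := by omega
          exact_mod_cast this
        have h3 : (B : ℝ) ≤ B * n₁ := le_mul_of_one_le_right (Nat.cast_nonneg _) hn1
        linarith
      have h2 : θ ^ x ≤ E * n₁ := by
        have h3 : A * ((n : ℝ) + j₀ + 1) ≤ A * ((2 + B + 1) * n₁) + A * x := by
          have := mul_le_mul_of_nonneg_left h1 (show 0 ≤ A by linarith)
          linarith
        have h4 := hD x
        have h5 : D ≤ D * n₁ := le_mul_of_one_le_right hD0 hn1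
        rw [hE]
        nlinarith
      have h3 : q ^ x = (θ ^ x) ^ (1 + lam) := by
        rw [← hq, ← Real.rpow_natCast, ← Real.rpow_natCast, ← Real.rpow_mul (by linarith),
          ← Real.rpow_mul (by linarith), mul_comm]
      rw [h3]
      have h4 : (θ ^ x) ^ (1 + lam) ≤ (E * n₁) ^ (1 + lam) :=
        Real.rpow_le_rpow (by positivity) h2 (by linarith)
      rw [Real.mul_rpow hE0.le (by linarith)] at h4
      nlinarith
  calc q ^ j₀ ≤ q ^ (x + (n - k) + B) := pow_le_pow_right₀ hq1.le hjx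
    _ = q ^ B * q ^ x * q ^ (n - k) := by ring
    _ ≤ q ^ B * ((1 + E ^ (1 + lam)) * n₁ ^ (1 + lam)) * q ^ (n - k) := by gcongr
    _ = _ := by ring

end Bound

end Pool.Agent.X123.TLC
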