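import Pool.Agent.X123.TLC.Defs
import Pool.Agent.X123.TLC.Tree

/-!
# Main theorem: `dim_H M_q(f_λ) = 1` for all `λ > 0`
-/

namespace Pool.Agent.X123.TLC

open Polynomial Finset
open scoped ENNReal NNReal

variable {F : Type*} [Field F]

theorem coeff_ofPoly_mul (N : F[X]) (Θ : LaurentSeries F) (m : ℤ) :
    (ofPoly N * Θ).coeff m = N.sum (fun i a => a * Θ.coeff (m + i)) := by
  induction N using Polynomial.induction_on' with
  | add p r hp hr =>
    rw [map_add, add_mul, HahnSeries.coeff_add, hp, hr,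
      Polynomial.sum_add_index p r _ (by simp) (by intros; ring)]
  | monomial n a =>
    rw [Polynomial.sum_monomial_index a _ (by simp)]
    have : ofPoly (Polynomial.monomial n a) = (HahnSeries.single (-(n : ℤ)) a : LaurentSeries F) := by
      rw [ofPoly, Polynomial.coe_eval₂RingHom, Polynomial.eval₂_monomial, HahnSeries.single_pow,
        one_pow, HahnSeries.C_apply, HahnSeries.single_mul_single]
      simp
    rw [this, HahnSeries.coeff_single_mul, sub_neg_eq_add]

/-- digits -/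
def dig (Θ : Ball F) (n : ℕ) : F := Θ.1.coeff (n + 1)

/-- element with prescribed digits -/
def ofSeq (s : ℕ → F) : Ball F :=
  ⟨{ coeff := fun n => if 0 < n then s (n.toNat - 1) else 0
     isPWO_support' := by
      apply Set.IsWF.isPWO
      apply BddBelow.isWF
      refine ⟨0, fun n hn => ?_⟩
      by_contra hcon
      push Not at hcon
      rw [Function.mem_support] at hn
      apply hn
      simp [not_lt.2 hcon.le] }, fun n hn => by simp [not_lt.2 hn]⟩

theorem dig_ofSeq (s : ℕ → F) : dig (ofSeq s) = s := by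
  funext n
  have h : (0 : ℤ) < n + 1 := by positivity
  simp only [dig, ofSeq, h, if_true]
  congr 1

theorem coeff_frac_mul (N : F[X]) (Θ : Ball F) (j : ℕ) :
    (fracPart (ofPoly N * Θ.1)).coeff (j + 1) = N.sum (fun i a => a * dig Θ (i + j)) := by
  have h : (0 : ℤ) < j + 1 := by positivity
  show (if (0 : ℤ) < j + 1 then (ofPoly N * Θ.1).coeff (j + 1) else 0) = _
  rw [if_pos h, coeff_ofPoly_mul]
  refine Finset.sum_congr rfl fun i _ => ?_
  simp only [dig]
  congr 2
  push_cast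
  ring

theorem coeff_frac_of_nonpos (Φ : LaurentSeries F) {n : ℤ} (hn : n ≤ 0) :
    (fracPart Φ).coeff n = 0 := by
  show (if (0 : ℤ) < n then Φ.coeff n else 0) = 0
  rw [if_neg (not_lt.2 hn)]

variable [Finite F]

theorem dist_le_of_agree {Θ Φ : Ball F} {n : ℕ} (h : ∀ i < n, dig Θ i = dig Φ i) :
    dist Θ Φ ≤ ((Nat.card F : ℝ) ^ (n + 1))⁻¹ := by
  rw [dist_def]
  have : absv (Θ.1 - Φ.1) ≤ (Nat.card F : ℝ) ^ (-((n + 1 : ℕ) : ℤ)) := by
    apply absv_le
    intro m hm
    rw [HahnSeries.coeff_sub]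
    rcases le_or_gt m 0 with h0 | h0
    · rw [Θ.2 m h0, Φ.2 m h0, sub_zero]
    · obtain ⟨k, rfl⟩ : ∃ k : ℕ, m = k + 1 := ⟨(m - 1).toNat, by omega⟩
      have := h k (by omega)
      simp only [dig] at this
      rw [this, sub_self]
  rwa [zpow_neg, zpow_natCast] at this

theorem agree_of_dist {Θ Φ : Ball F} (hne : Θ ≠ Φ) :
    ∃ n : ℕ, (∀ i < n, dig Θ i = dig Φ i) ∧ dist Θ Φ = ((Nat.card F : ℝ) ^ (n + 1))⁻¹ := by
  have h1 : Θ.1 - Φ.1 ≠ 0 := fun h2 => hne (Subtype.ext (sub_eq_zero.1 h2))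
  have h2 : 0 < (Θ.1 - Φ.1).order := by
    by_contra hcon
    push Not at hcon
    apply h1
    rw [← HahnSeries.coeff_order_eq_zero, HahnSeries.coeff_sub, Θ.2 _ hcon, Φ.2 _ hcon, sub_zero]
  refine ⟨((Θ.1 - Φ.1).order - 1).toNat, fun i hi => ?_, ?_⟩
  · have : (Θ.1 - Φ.1).coeff (i + 1) = 0 := HahnSeries.coeff_eq_zero_of_lt_order (by omega)
    rw [HahnSeries.coeff_sub, sub_eq_zero] at this
    exact this
  · rw [dist_def, absv_of_ne h1]
    rw [← zpow_natCast, ← zpow_neg]
    congr 2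
    omega

/-- upper bound for the dimension -/
theorem dimH_le_one (s : Set (Ball F)) : dimH s ≤ 1 := by
  have hq := one_lt_cast (F := F)
  have : Fintype F := Fintype.ofFinite F
  refine (dimH_mono (Set.subset_univ s)).trans ?_
  borelize (Ball F)
  have key : MeasureTheory.Measure.hausdorffMeasure 1 (Set.univ : Set (Ball F)) ≤ 1 := by
    have h1 := MeasureTheory.Measure.hausdorffMeasure_le_liminf_sum (X := Ball F) (β := ℕ)
      (ι := fun n => (Fin n → F)) 1 Set.univ (l := Filter.atTop)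
      (fun n => ENNReal.ofReal (((Nat.card F : ℝ)⁻¹) ^ (n + 1)))
      (by
        rw [← ENNReal.ofReal_zero]
        apply ENNReal.tendsto_ofReal
        exact (tendsto_pow_atTop_nhds_zero_of_lt_one (by positivity)
          (inv_lt_one_of_one_lt₀ hq)).comp (Filter.tendsto_add_atTop_nat 1))
      (fun n v => {Θ | ∀ i : Fin n, dig Θ i = v i})
      (Filter.Eventually.of_forall fun n v => by
        apply Metric.ediam_le
        intro Θ hΘ Φ hΦ
        rw [edist_dist]
        apply ENNReal.ofReal_le_ofReal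
        rw [inv_pow]
        apply dist_le_of_agree
        intro i hi
        rw [hΘ ⟨i, hi⟩, hΦ ⟨i, hi⟩])
      (Filter.Eventually.of_forall fun n Θ _ => by
        rw [Set.mem_iUnion]
        exact ⟨fun i => dig Θ i, fun i => rfl⟩)
    refine h1.trans ?_
    apply Filter.liminf_le_of_le
    · isBoundedDefault
    · intro b hb
      obtain ⟨n, hn⟩ := hb.exists
      refine hn.trans ?_
      calc _ ≤ ∑ v : Fin n → F, ENNReal.ofReal (((Nat.card F : ℝ)⁻¹) ^ (n + 1)) := by
            refine Finset.sum_le_sum fun v _ => ?_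
            rw [ENNReal.rpow_one]
            apply Metric.ediam_le
            intro Θ hΘ Φ hΦ
            rw [edist_dist]
            apply ENNReal.ofReal_le_ofReal
            rw [inv_pow]
            apply dist_le_of_agree
            intro i hi
            rw [hΘ ⟨i, hi⟩, hΦ ⟨i, hi⟩]
        _ = ENNReal.ofReal ((Nat.card F : ℝ) ^ n * ((Nat.card F : ℝ)⁻¹) ^ (n + 1)) := by
            rw [Finset.sum_const, Finset.card_univ, Fintype.card_fun, Fintype.card_fin,
              nsmul_eq_mul, ENNReal.ofReal_mul (by positivity), Nat.card_eq_fintype_card]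
            congr 1
            rw [← Nat.cast_pow, ENNReal.ofReal_natCast]
        _ ≤ 1 := by
            rw [← ENNReal.ofReal_one]
            apply ENNReal.ofReal_le_ofReal
            rw [inv_pow, pow_succ]
            rw [mul_inv, ← mul_assoc, mul_inv_cancel₀ (by positivity), one_mul]
            exact inv_le_one_of_one_le₀ hq.le
  have := dimH_le_of_hausdorffMeasure_ne_top (X := Ball F) (d := 1) (s := Set.univ)
    (by
      rw [NNReal.coe_one]
      exact ne_top_of_le_ne_top ENNReal.one_ne_top key)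
  simpa using this

/-- sequences with slowly growing potential give elements of `M_q(f_λ)` -/
theorem mem_M {θ A lam : ℝ} (hθ : 1 < θ) (hA : 1 ≤ A) {B : ℕ} (hB : 0 < B)
    (hlam : 0 < lam) (hq : θ ^ (1 + lam) = Nat.card F) {Θ : Ball F}
    (hΘ : ∀ m : ℕ, Phi θ (PiNat.res (dig Θ) (m * B)) ≤ A * (m + 1)) :
    Θ ∈ M (F := F) (growth lam) := by
  obtain ⟨C, hC, h⟩ := key_bound (F := F) hθ hA hB hlam hq
  have hq1 := one_lt_cast (F := F)
  have hq0 : (0 : ℝ) < Nat.card F := by linarith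
  set q : ℝ := (Nat.card F : ℝ) with hqdef
  change 0 < ⨅ N : {N : F[X] // N ≠ 0}, growth lam N.1.natDegree * q ^ N.1.natDegree *
    (q ^ N.1.natTrailingDegree)⁻¹ * absv (fracPart (ofPoly N.1 * Θ.1))
  refine lt_of_lt_of_le (show 0 < (C * q)⁻¹ by positivity) ?_
  have : Nonempty {N : F[X] // N ≠ 0} := ⟨⟨1, one_ne_zero⟩⟩
  apply le_ciInf
  rintro ⟨N, hN⟩
  simp only
  have hgr : 0 < growth lam N.natDegree := by
    unfold growth
    split_ifs with h0
    · exact one_pos
    · have : (0 : ℝ) < N.natDegree := by exact_mod_cast Nat.pos_of_ne_zero h0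
      positivity
  have hgreq : growth lam N.natDegree =
    (if N.natDegree = 0 then 1 else (N.natDegree : ℝ) ^ (1 + lam)) := rfl
  have hdeg : N.natTrailingDegree ≤ N.natDegree := Polynomial.natTrailingDegree_le_natDegree N
  have hpow : q ^ N.natDegree * (q ^ N.natTrailingDegree)⁻¹ =
      q ^ (N.natDegree - N.natTrailingDegree) := by
    rw [pow_sub₀ _ hq0.ne' hdeg]
  set P := q ^ (N.natDegree - N.natTrailingDegree) with hP
  have hP0 : 0 < P := by positivity
  have hmain : ∀ j₀ : ℕ, (∀ j < j₀, (fracPart (ofPoly N * Θ.1)).coeff (j + 1) = 0) →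
      q ^ j₀ ≤ C * growth lam N.natDegree * P := by
    intro j₀ hj
    refine h (dig Θ) hΘ N hN j₀ fun j hjj => ?_
    rw [← coeff_frac_mul]
    exact hj j hjj
  -- the fractional part does not vanish
  have hne : fracPart (ofPoly N * Θ.1) ≠ 0 := by
    intro h0
    obtain ⟨j₀, hj₀⟩ := pow_unbounded_of_one_lt (C * growth lam N.natDegree * P) hq1
    have := hmain j₀ fun j _ => by rw [h0]; simp
    linarith
  set Φ := fracPart (ofPoly N * Θ.1) with hΦ
  have hord : 0 < Φ.order := by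
    by_contra hcon
    push Not at hcon
    exact hne (HahnSeries.coeff_order_eq_zero.1 (coeff_frac_of_nonpos _ hcon))
  obtain ⟨j₀, hj₀⟩ : ∃ j₀ : ℕ, Φ.order = j₀ + 1 := ⟨(Φ.order - 1).toNat, by omega⟩
  have h1 := hmain j₀ fun j hj => HahnSeries.coeff_eq_zero_of_lt_order (by omega)
  have h2 : absv Φ = (q ^ (j₀ + 1))⁻¹ := by
    rw [absv_of_ne hne, hj₀, zpow_neg, ← hqdef]
    congr 1
  rw [h2, mul_assoc (growth lam N.natDegree), hpow]
  rw [inv_le_iff_one_le_mul₀ (by positivity)]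
  have h3 : q ^ (j₀ + 1) ≤ growth lam N.natDegree * P * (C * q) := by
    rw [pow_succ]
    calc q ^ j₀ * q ≤ (C * growth lam N.natDegree * P) * q :=
          mul_le_mul_of_nonneg_right h1 hq0.le
      _ = _ := by ring
  have h4 : 0 < q ^ (j₀ + 1) := by positivity
  calc (1 : ℝ) = q ^ (j₀ + 1) * (q ^ (j₀ + 1))⁻¹ := (mul_inv_cancel₀ h4.ne').symm
    _ ≤ growth lam N.natDegree * P * (C * q) * (q ^ (j₀ + 1))⁻¹ :=
        mul_le_mul_of_nonneg_right h3 (by positivity)
    _ = _ := by ring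

theorem one_le_dimH {lam : ℝ} (hlam : 0 < lam) : 1 ≤ dimH (M (F := F) (growth lam)) := by
  have : Fintype F := Fintype.ofFinite F
  have hq1 := one_lt_cast (F := F)
  have hcard : (Nat.card F : ℝ) = Fintype.card F := by rw [Nat.card_eq_fintype_card]
  set q : ℝ := (Nat.card F : ℝ) with hqdef
  have hq0 : 0 < q := by linarith
  set θ : ℝ := q ^ (1 / (1 + lam)) with hθdef
  have hθ1 : 1 < θ := Real.one_lt_rpow hq1 (by positivity)
  have hθq : θ ^ (1 + lam) = q := by
    rw [hθdef, ← Real.rpow_mul hq0.le, one_div, inv_mul_cancel₀ (by positivity), Real.rpow_one]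
  have hθlt : θ < q := by
    rw [hθdef]
    conv_rhs => rw [← Real.rpow_one q]
    apply Real.rpow_lt_rpow_of_exponent_lt hq1
    rw [div_lt_one (by positivity)]
    linarith
  apply le_of_forall_lt
  intro r hr
  -- pass to a positive real exponent
  obtain ⟨ρ, hrρ, hρ1⟩ := exists_between hr
  have hρtop : ρ ≠ ⊤ := ne_top_of_lt hρ1
  lift ρ to ℝ≥0 using hρtop
  have hρ1' : (ρ : ℝ) < 1 := by exact_mod_cast hρ1
  have hρ0 : 0 < ρ := by
    have : (0 : ℝ≥0∞) < ρ := lt_of_le_of_lt bot_le hrρ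
    exact_mod_cast this
  refine lt_of_lt_of_le hrρ ?_
  -- choose the block length
  have hqρ : q ^ (ρ : ℝ) < q := by
    conv_rhs => rw [← Real.rpow_one q]
    exact Real.rpow_lt_rpow_of_exponent_lt hq1 hρ1'
  have hev : ∀ a : ℝ, 0 < a → a < q → ∀ᶠ n : ℕ in Filter.atTop, 4 * a ^ n ≤ q ^ n := by
    intro a ha haq
    have h1 := tendsto_pow_atTop_nhds_zero_of_lt_one (r := a / q) (by positivity)
      ((div_lt_one hq0).2 haq)
    filter_upwards [h1.eventually (gt_mem_nhds (show (0 : ℝ) < 1 / 4 by norm_num))] with n hn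
    rw [div_pow, div_lt_iff₀ (by positivity)] at hn
    linarith
  obtain ⟨B, hB1, hB2, hB3⟩ := ((hev θ (by linarith) hθlt).and
    ((hev (q ^ (ρ : ℝ)) (by positivity) hqρ).and (Filter.eventually_ge_atTop 2))).exists
  have hB0 : 0 < B := by omega
  -- the number of children
  set Qn : ℕ := Fintype.card F ^ B with hQn
  have hQr : (Qn : ℝ) = q ^ B := by rw [hQn]; push_cast; rw [hcard]
  have hQ4 : 4 ≤ Qn := by
    have h2 : 2 ≤ Fintype.card F := by
      have := two_le_card (F := F)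
      rwa [Nat.card_eq_fintype_card] at this
    calc 4 = 2 ^ 2 := by norm_num
      _ ≤ Fintype.card F ^ 2 := Nat.pow_le_pow_left h2 2
      _ ≤ Fintype.card F ^ B := Nat.pow_le_pow_right (by omega) hB3
  set Mn : ℕ := Qn / 2 with hMn
  have hM2 : 2 * Mn ≤ Qn := by omega
  have hM1 : 1 < Mn := by omega
  have hM4 : Qn ≤ 4 * Mn := by omega
  have hMρ : (q ^ (ρ : ℝ)) ^ B ≤ Mn := by
    have : (Qn : ℝ) ≤ 4 * Mn := by exact_mod_cast hM4
    rw [hQr] at this
    linarith
  obtain ⟨S, hS1, hS2⟩ := exists_tree (F := F) hθ1.le (by rw [← hcard]; exact hθlt.le) hB0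
    (by rw [← hcard]; exact hB1) hM2
  -- the set
  set T : Set (Ball F) := Set.range fun x => ofSeq (S x) with hT
  have hTM : T ⊆ M (F := F) (growth lam) := by
    rintro _ ⟨x, rfl⟩
    have hBr : (1 : ℝ) ≤ B := by exact_mod_cast hB0
    refine mem_M hθ1 (A := 4 * B * (B + 2)) (by nlinarith) hB0 hlam hθq fun m => ?_
    rw [dig_ofSeq]
    exact hS2 x m
  refine le_trans ?_ (dimH_mono hTM)
  have hinj : Function.Injective fun x => ofSeq (S x) := by
    intro x y hxy
    have h1 : S x = S y := by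
      have := congrArg dig hxy
      simpa [dig_ofSeq] using this
    funext m
    refine hS1 x y ((m + 1) * B) (fun i _ => by rw [h1]) m ?_
    rw [Nat.mul_div_cancel _ hB0]
    omega
  set g : Ball F → ℝ := fun Θ => Real.ofDigits (b := Mn)
    (open Classical in if h : ∃ x, ofSeq (S x) = Θ then h.choose else fun _ => ⟨0, by omega⟩)
    with hg
  have hgx : ∀ x, g (ofSeq (S x)) = Real.ofDigits x := by
    intro x
    have h : ∃ y, ofSeq (S y) = ofSeq (S x) := ⟨x, rfl⟩
    simp only [hg, dif_pos h]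
    rw [hinj h.choose_spec]
  have hhol : HolderOnWith (Real.toNNReal ((q ^ (ρ : ℝ)) ^ B)) ρ g T := by
    rintro _ ⟨x, rfl⟩ _ ⟨y, rfl⟩
    simp only
    rw [hgx, hgx]
    rcases eq_or_ne (ofSeq (S x)) (ofSeq (S y)) with he | hne
    · rw [hinj he]; simp
    obtain ⟨n, hn, hd⟩ := agree_of_dist hne
    rw [dig_ofSeq, dig_ofSeq] at hn
    have h1 := Real.abs_ofDigits_sub_ofDigits_le (hS1 x y n hn)
    have h2 : ((Mn : ℝ) ^ (n / B))⁻¹ ≤ (q ^ (ρ : ℝ)) ^ B * (((q ^ (n + 1))⁻¹) ^ (ρ : ℝ)) := by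
      have hr0 : 0 < q ^ (ρ : ℝ) := by positivity
      have hr1 : 1 ≤ q ^ (ρ : ℝ) := Real.one_le_rpow hq1.le ρ.2
      have e1 : ((q ^ (n + 1))⁻¹) ^ (ρ : ℝ) = ((q ^ (ρ : ℝ)) ^ (n + 1))⁻¹ := by
        rw [Real.inv_rpow (by positivity), ← Real.rpow_natCast, ← Real.rpow_natCast,
          ← Real.rpow_mul hq0.le, ← Real.rpow_mul hq0.le, mul_comm]
      have e2 : (q ^ (ρ : ℝ)) ^ (n + 1) ≤ (q ^ (ρ : ℝ)) ^ B * (Mn : ℝ) ^ (n / B) := by
        calc (q ^ (ρ : ℝ)) ^ (n + 1) ≤ (q ^ (ρ : ℝ)) ^ (B + B * (n / B)) := by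
              apply pow_le_pow_right₀ hr1
              have := Nat.div_add_mod n B
              have := Nat.mod_lt n hB0
              omega
          _ = (q ^ (ρ : ℝ)) ^ B * ((q ^ (ρ : ℝ)) ^ B) ^ (n / B) := by rw [pow_add, pow_mul]
          _ ≤ _ := by gcongr
      rw [e1]
      have hMpos : (0 : ℝ) < (Mn : ℝ) ^ (n / B) := by
        have : (0 : ℝ) < Mn := by exact_mod_cast (by omega : 0 < Mn)
        positivity
      rw [inv_le_iff_one_le_mul₀ hMpos]
      have hpos : 0 < (q ^ (ρ : ℝ)) ^ (n + 1) := by positivity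
      rw [mul_right_comm, ← div_eq_mul_inv, le_div_iff₀ hpos, one_mul]
      exact e2
    rw [edist_dist, edist_dist, hd, Real.dist_eq,
      ENNReal.ofReal_rpow_of_nonneg (by positivity) (NNReal.coe_nonneg ρ)]
    show _ ≤ ENNReal.ofReal ((q ^ (ρ : ℝ)) ^ B) * _
    rw [← ENNReal.ofReal_mul (by positivity)]
    exact ENNReal.ofReal_le_ofReal (h1.trans h2)
  have hdim := hhol.dimH_image_le hρ0
  have himg : Set.Icc (0 : ℝ) 1 ⊆ g '' T := by
    intro y hy
    obtain ⟨x, _, hx⟩ := Real.ofDigits_SurjOn hM1 hy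
    exact ⟨ofSeq (S x), ⟨x, rfl⟩, by rw [hgx, hx]⟩
  have h1 : (1 : ℝ≥0∞) ≤ dimH (g '' T) := by
    have h2 : dimH (Set.Icc (0 : ℝ) 1) = 1 := by
      have := Real.dimH_of_nonempty_interior (E := ℝ) (s := Set.Icc (0 : ℝ) 1)
        (by rw [interior_Icc]; exact ⟨1 / 2, by norm_num, by norm_num⟩)
      simpa using this
    rw [← h2]
    exact dimH_mono himg
  have h3 := h1.trans hdim
  have hρ0' : (ρ : ℝ≥0∞) ≠ 0 := by exact_mod_cast hρ0.ne'
  rwa [ENNReal.le_div_iff_mul_le (Or.inl hρ0') (Or.inl ENNReal.coe_ne_top), one_mul] at h3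

theorem dimH_eq_one {lam : ℝ} (hlam : 0 < lam) : dimH (M (F := F) (growth lam)) = 1 :=
  le_antisymm (dimH_le_one _) (one_le_dimH hlam)

end Pool.Agent.X123.TLC
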