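import Mathlib

/-!
# Linear complexity of windows and the potential

Words over a finite field are stored as reversed lists: the head is the latest digit.
-/

namespace Pool.Agent.X123.TLC

open Finset

section Rec

variable {F : Type*} [Field F]

/-- the word `l` (latest digit first) satisfies a linear recurrence of order at most `L`. -/
def Rec (l : List F) (L : ℕ) : Prop :=
  ∃ a : ℕ → F, a 0 = 1 ∧ ∀ j, j + L < l.length → ∑ i ∈ range (L + 1), a i * l.getD (j + i) 0 = 0

theorem rec_length (l : List F) : Rec l l.length :=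
  ⟨fun _ => 1, rfl, fun j hj => absurd hj (by omega)⟩

open Classical in
/-- linear complexity -/
noncomputable def lc (l : List F) : ℕ := Nat.find ⟨l.length, rec_length l⟩

theorem lc_spec (l : List F) : Rec l (lc l) := by
  classical
  exact Nat.find_spec (⟨l.length, rec_length l⟩ : ∃ L, Rec l L)

theorem lc_le {l : List F} {L : ℕ} (h : Rec l L) : lc l ≤ L := by
  classical
  exact Nat.find_min' _ h

theorem rec_tail {c : F} {l : List F} {L : ℕ} (h : Rec (c :: l) L) : Rec l L := by
  obtain ⟨a, ha, h⟩ := h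
  refine ⟨a, ha, fun j hj => ?_⟩
  have := h (j + 1) (by simp; omega)
  refine Eq.trans ?_ this
  refine Finset.sum_congr rfl fun i _ => ?_
  rw [show j + 1 + i = (j + i) + 1 by ring, List.getD_cons_succ]

theorem rec_drop {l : List F} {L : ℕ} (k : ℕ) (h : Rec l L) : Rec (l.drop k) L := by
  induction k generalizing l with
  | zero => simpa using h
  | succ k ih =>
    cases l with
    | nil => simpa using h
    | cons c l => simpa using ih (rec_tail h)

theorem lc_le_cons (c : F) (l : List F) : lc l ≤ lc (c :: l) := lc_le (rec_tail (lc_spec _))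

/-- Massey's lemma. -/
theorem massey {c : F} {l : List F} {L L' : ℕ} {a : ℕ → F}
    (ha : ∀ j, j + L < l.length → ∑ i ∈ range (L + 1), a i * l.getD (j + i) 0 = 0)
    (hb : Rec (c :: l) L') (hL : L + L' ≤ l.length) :
    ∑ i ∈ range (L + 1), a i * (c :: l).getD i 0 = 0 := by
  obtain ⟨b, hb0, hb⟩ := hb
  set u : ℕ → F := fun j => (c :: l).getD j 0 with hu
  have h1 : ∑ i ∈ range (L + 1), a i * ∑ k ∈ range (L' + 1), b k * u (i + k) = 0 := by
    refine Finset.sum_eq_zero fun i hi => ?_
    rw [Finset.mem_range] at hi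
    have := hb i (by simp; omega)
    rw [this, mul_zero]
  have h2 : ∑ i ∈ range (L + 1), a i * ∑ k ∈ range (L' + 1), b k * u (i + k)
      = ∑ k ∈ range (L' + 1), b k * ∑ i ∈ range (L + 1), a i * u (i + k) := by
    simp only [Finset.mul_sum]
    rw [Finset.sum_comm]
    refine Finset.sum_congr rfl fun k _ => Finset.sum_congr rfl fun i _ => by ring
  rw [h2, Finset.sum_range_succ'] at h1
  have h3 : ∑ k ∈ range L', b (k + 1) * ∑ i ∈ range (L + 1), a i * u (i + (k + 1)) = 0 := by
    refine Finset.sum_eq_zero fun k hk => ?_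
    rw [Finset.mem_range] at hk
    have := ha k (by omega)
    have h4 : ∑ i ∈ range (L + 1), a i * u (i + (k + 1)) = 0 := by
      rw [← this]
      refine Finset.sum_congr rfl fun i _ => ?_
      simp only [hu]
      rw [show i + (k + 1) = (k + i) + 1 by ring, List.getD_cons_succ]
    rw [h4, mul_zero]
  rw [h3, hb0, zero_add, one_mul] at h1
  exact h1

end Rec

section Weight

variable {F : Type*} [Field F]

/-- weight of a window -/
noncomputable def wt (θ : ℝ) (l : List F) : ℝ := θ ^ (l.length - 2 * lc l)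

theorem wt_nil (θ : ℝ) : wt θ ([] : List F) = 1 := by simp [wt]

theorem one_le_wt {θ : ℝ} (hθ : 1 ≤ θ) (l : List F) : 1 ≤ wt θ l := one_le_pow₀ hθ

theorem wt_nonneg {θ : ℝ} (hθ : 1 ≤ θ) (l : List F) : 0 ≤ wt θ l :=
  zero_le_one.trans (one_le_wt hθ l)

open Classical in
theorem exists_pred {θ : ℝ} (hθ : 1 ≤ θ) (l : List F) :
    ∃ c₀ : F, ∀ c : F, wt θ (c :: l) ≤ (if c = c₀ then θ * wt θ l else 0) + 1 := by
  have h0 : 0 ≤ θ * wt θ l := mul_nonneg (by linarith) (wt_nonneg hθ l)
  rcases Nat.lt_or_ge l.length (2 * lc l) with h | h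
  · refine ⟨0, fun c => ?_⟩
    have h1 : (c :: l).length - 2 * lc (c :: l) = 0 := by
      have := lc_le_cons c l
      simp; omega
    rw [wt, h1, pow_zero]
    split_ifs <;> linarith
  · obtain ⟨a, ha0, ha⟩ := lc_spec l
    refine ⟨-∑ i ∈ range (lc l), a (i + 1) * l.getD i 0, fun c => ?_⟩
    split_ifs with hc
    · have h1 : (c :: l).length - 2 * lc (c :: l) ≤ (l.length - 2 * lc l) + 1 := by
        have := lc_le_cons c l
        simp; omega
      have h2 : wt θ (c :: l) ≤ θ * wt θ l := by
        rw [wt, wt, ← pow_succ']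
        exact pow_le_pow_right₀ hθ h1
      linarith
    · have h1 : l.length < lc l + lc (c :: l) := by
        by_contra hcon
        push Not at hcon
        have := massey ha (lc_spec (c :: l)) hcon
        rw [Finset.sum_range_succ'] at this
        simp only [ha0, List.getD_cons_succ, List.getD_cons_zero, one_mul] at this
        apply hc
        linear_combination this
      have h2 : (c :: l).length - 2 * lc (c :: l) = 0 := by
        simp; omega
      rw [wt, h2, pow_zero]
      linarith

variable [Fintype F]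

theorem sum_wt_le {θ : ℝ} (hθ : 1 ≤ θ) (l : List F) :
    ∑ c : F, wt θ (c :: l) ≤ θ * wt θ l + Fintype.card F := by
  classical
  obtain ⟨c₀, h⟩ := exists_pred hθ l
  refine (Finset.sum_le_sum fun c _ => h c).trans ?_
  rw [Finset.sum_add_distrib]
  simp

/-- the potential of a reversed prefix: total weight of its suffix windows -/
noncomputable def Phi (θ : ℝ) (l : List F) : ℝ := ∑ k ∈ range l.length, wt θ (l.take (k + 1))

omit [Fintype F] in
theorem Phi_nil (θ : ℝ) : Phi θ ([] : List F) = 0 := by simp [Phi]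

omit [Fintype F] in
theorem Phi_nonneg {θ : ℝ} (hθ : 1 ≤ θ) (l : List F) : 0 ≤ Phi θ l :=
  Finset.sum_nonneg fun _ _ => wt_nonneg hθ _

omit [Fintype F] in
theorem wt_le_Phi {θ : ℝ} (hθ : 1 ≤ θ) (l : List F) {k : ℕ} (hk : k < l.length) :
    wt θ (l.take (k + 1)) ≤ Phi θ l :=
  Finset.single_le_sum (f := fun k => wt θ (l.take (k + 1))) (fun _ _ => wt_nonneg hθ _)
    (Finset.mem_range.2 hk)

theorem sum_Phi_le {θ : ℝ} (hθ : 1 ≤ θ) (hq : θ ≤ Fintype.card F) (l : List F) :
    ∑ c : F, Phi θ (c :: l) ≤ θ * Phi θ l + Fintype.card F * (l.length + 2) := by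
  have h1 : ∀ c : F, Phi θ (c :: l) = ∑ k ∈ range (l.length + 1), wt θ (c :: l.take k) := by
    intro c
    rw [Phi]
    simp
  simp only [h1]
  rw [Finset.sum_comm]
  have h2 : ∑ k ∈ range (l.length + 1), ∑ c : F, wt θ (c :: l.take k)
      ≤ ∑ k ∈ range (l.length + 1), (θ * wt θ (l.take k) + Fintype.card F) :=
    Finset.sum_le_sum fun k _ => sum_wt_le hθ _
  refine h2.trans ?_
  rw [Finset.sum_add_distrib, ← Finset.mul_sum, Finset.sum_range_succ']
  simp only [List.take_zero, wt_nil, Finset.sum_const, Finset.card_range, nsmul_eq_mul]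
  have : Phi θ l = ∑ k ∈ range l.length, wt θ (l.take (k + 1)) := rfl
  rw [← this]
  push_cast
  nlinarith

/-- sum over blocks -/
theorem sum_block_le {θ : ℝ} (hθ : 1 ≤ θ) (hq : θ ≤ Fintype.card F) (l : List F) (B : ℕ) :
    ∑ v : Fin B → F, Phi θ (List.ofFn v ++ l)
      ≤ θ ^ B * Phi θ l + B * (Fintype.card F : ℝ) ^ B * (l.length + B + 2) := by
  induction B with
  | zero => simp
  | succ B ih =>
    have hq1 : (1 : ℝ) ≤ Fintype.card F := hθ.trans hq
    have e : ∑ v : Fin (B + 1) → F, Phi θ (List.ofFn v ++ l)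
        = ∑ v : Fin B → F, ∑ c : F, Phi θ (c :: (List.ofFn v ++ l)) := by
      rw [← (Fin.consEquiv (fun _ : Fin (B + 1) => F)).sum_comp, Fintype.sum_prod_type,
        Finset.sum_comm]
      refine Finset.sum_congr rfl fun v _ => Finset.sum_congr rfl fun c _ => ?_
      simp [Fin.consEquiv]
    rw [e]
    have h1 : ∑ v : Fin B → F, ∑ c : F, Phi θ (c :: (List.ofFn v ++ l))
        ≤ ∑ v : Fin B → F, (θ * Phi θ (List.ofFn v ++ l)
            + Fintype.card F * (l.length + B + 2)) := by
      refine Finset.sum_le_sum fun v _ => ?_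
      have := sum_Phi_le hθ hq (List.ofFn v ++ l)
      rw [List.length_append, List.length_ofFn] at this
      push_cast at this
      calc _ ≤ _ := this
        _ = _ := by ring
    refine h1.trans ?_
    rw [Finset.sum_add_distrib, ← Finset.mul_sum, Finset.sum_const, Finset.card_univ,
      nsmul_eq_mul, Fintype.card_fun, Fintype.card_fin]
    have h2 : θ * ∑ v : Fin B → F, Phi θ (List.ofFn v ++ l)
        ≤ θ * (θ ^ B * Phi θ l + B * (Fintype.card F : ℝ) ^ B * (l.length + B + 2)) :=
      mul_le_mul_of_nonneg_left ih (by linarith)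
    have h3 : θ * (B * (Fintype.card F : ℝ) ^ B * (l.length + B + 2))
        ≤ Fintype.card F * (B * (Fintype.card F : ℝ) ^ B * (l.length + B + 2)) :=
      mul_le_mul_of_nonneg_right hq (by positivity)
    push_cast
    have h4 : 0 ≤ (B + 1) * (Fintype.card F : ℝ) ^ (B + 1) := by positivity
    calc _ ≤ θ * (θ ^ B * Phi θ l + B * (Fintype.card F : ℝ) ^ B * (l.length + B + 2))
          + (Fintype.card F : ℝ) ^ B * (Fintype.card F * (l.length + B + 2)) := by
            linarith
      _ ≤ θ * θ ^ B * Phi θ l + (Fintype.card F * (B * (Fintype.card F : ℝ) ^ B * (l.length + B + 2)))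
          + (Fintype.card F : ℝ) ^ B * (Fintype.card F * (l.length + B + 2)) := by
            linarith
      _ = θ ^ (B + 1) * Phi θ l + (B + 1) * (Fintype.card F : ℝ) ^ (B + 1) * (l.length + B + 2) := by
            ring
      _ ≤ _ := by
            have : (B + 1) * (Fintype.card F : ℝ) ^ (B + 1) * (l.length + B + 2)
              ≤ (B + 1) * (Fintype.card F : ℝ) ^ (B + 1) * (l.length + (B + 1) + 2) := by
              apply mul_le_mul_of_nonneg_left _ h4
              linarith
            linarith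

open Classical in
/-- the good blocks above a prefix -/
noncomputable def good (θ : ℝ) (B : ℕ) (l : List F) : Finset (Fin B → F) :=
  Finset.univ.filter fun v => (Fintype.card F : ℝ) ^ B * Phi θ (List.ofFn v ++ l)
    ≤ 2 * (θ ^ B * Phi θ l + B * (Fintype.card F : ℝ) ^ B * (l.length + B + 2))

/-- Markov: at least half of all blocks are good. -/
theorem card_good {θ : ℝ} (hθ : 1 ≤ θ) (hq : θ ≤ Fintype.card F) (l : List F) (B : ℕ) :
    (Fintype.card F : ℝ) ^ B ≤ 2 * (good θ B l).card := by
  classical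
  set Q : ℝ := (Fintype.card F : ℝ) ^ B with hQ
  have hq1 : (1 : ℝ) ≤ Fintype.card F := hθ.trans hq
  have hQ0 : 0 < Q := by positivity
  set T : ℝ := θ ^ B * Phi θ l + B * Q * (l.length + B + 2) with hT
  rcases Nat.eq_zero_or_pos B with hB | hB
  · subst hB
    have : good θ 0 l = Finset.univ := by
      apply Finset.filter_true_of_mem
      intro v _
      simp
      have := Phi_nonneg hθ l
      linarith
    rw [this]
    simp [hQ]
  have hT0 : 0 < T := by
    have := Phi_nonneg hθ l
    have : (0 : ℝ) < B := by exact_mod_cast hB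
    positivity
  have hs := sum_block_le hθ hq l B
  have hcard : (Finset.univ.filter fun v : Fin B → F => ¬ (Q * Phi θ (List.ofFn v ++ l)
      ≤ 2 * T)).card + (good θ B l).card = (Fintype.card F) ^ B := by
    have h1 := Finset.card_filter_add_card_filter_not (s := (Finset.univ : Finset (Fin B → F)))
      (fun v => Q * Phi θ (List.ofFn v ++ l) ≤ 2 * T)
    rw [Finset.card_univ, Fintype.card_fun, Fintype.card_fin] at h1
    rw [add_comm]
    exact h1
  have hbad : ((Finset.univ.filter fun v : Fin B → F => ¬ (Q * Phi θ (List.ofFn v ++ l)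
      ≤ 2 * T)).card : ℝ) * (2 * T) ≤ Q * T := by
    calc _ = ∑ v ∈ (Finset.univ.filter fun v : Fin B → F => ¬ (Q * Phi θ (List.ofFn v ++ l)
          ≤ 2 * T)), (2 * T) := by
            rw [Finset.sum_const, nsmul_eq_mul]
      _ ≤ ∑ v ∈ (Finset.univ.filter fun v : Fin B → F => ¬ (Q * Phi θ (List.ofFn v ++ l)
          ≤ 2 * T)), Q * Phi θ (List.ofFn v ++ l) := by
            apply Finset.sum_le_sum
            intro v hv
            rw [Finset.mem_filter] at hv
            exact (not_le.1 hv.2).le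
      _ ≤ ∑ v : Fin B → F, Q * Phi θ (List.ofFn v ++ l) := by
            apply Finset.sum_le_sum_of_subset_of_nonneg (Finset.filter_subset _ _)
            intro v _ _
            exact mul_nonneg hQ0.le (Phi_nonneg hθ _)
      _ = Q * ∑ v : Fin B → F, Phi θ (List.ofFn v ++ l) := by rw [Finset.mul_sum]
      _ ≤ Q * T := mul_le_mul_of_nonneg_left hs hQ0.le
  have hbad2 : ((Finset.univ.filter fun v : Fin B → F => ¬ (Q * Phi θ (List.ofFn v ++ l)
      ≤ 2 * T)).card : ℝ) * 2 ≤ Q := by
    have : ((Finset.univ.filter fun v : Fin B → F => ¬ (Q * Phi θ (List.ofFn v ++ l)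
      ≤ 2 * T)).card : ℝ) * 2 * T ≤ Q * T := by linarith
    exact le_of_mul_le_mul_right this hT0
  have hc : ((Finset.univ.filter fun v : Fin B → F => ¬ (Q * Phi θ (List.ofFn v ++ l)
      ≤ 2 * T)).card : ℝ) + (good θ B l).card = Q := by
    rw [← Nat.cast_add, hcard, Nat.cast_pow]
  linarith

/-- growth of the potential along good blocks -/
theorem Phi_step {θ : ℝ} {B : ℕ} (hB : 0 < B) (_hq1 : (1 : ℝ) ≤ Fintype.card F)
    (h4 : 4 * θ ^ B ≤ (Fintype.card F : ℝ) ^ B) {A : ℝ} (hA : 4 * B * (B + 2) ≤ A)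
    {m : ℕ} {l : List F} (hθ : 1 ≤ θ)
    (hl : l.length = m * B) (hP : Phi θ l ≤ A * (m + 1)) {v : Fin B → F}
    (hv : v ∈ good θ B l) : Phi θ (List.ofFn v ++ l) ≤ A * ((m + 1 : ℕ) + 1) := by
  classical
  rw [good, Finset.mem_filter] at hv
  have h := hv.2
  set Q : ℝ := (Fintype.card F : ℝ) ^ B with hQ
  have hQ0 : 0 < Q := by positivity
  have hB1 : (1 : ℝ) ≤ B := by exact_mod_cast hB
  have hP0 := Phi_nonneg hθ l
  have hm : (0 : ℝ) ≤ m := Nat.cast_nonneg m
  have h1 : 2 * (θ ^ B * Phi θ l) ≤ Q * (A * (m + 1) / 2) := by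
    have : 4 * θ ^ B * Phi θ l ≤ Q * (A * (m + 1)) :=
      mul_le_mul h4 hP hP0 hQ0.le
    linarith
  have hlen : (l.length : ℝ) = m * B := by rw [hl]; push_cast; ring
  have h2 : 2 * (B * Q * ((l.length : ℝ) + B + 2)) ≤ Q * (A * (m + 1) / 2) := by
    have h3 : B * ((l.length : ℝ) + B + 2) ≤ B * (B + 2) * (m + 1) := by
      rw [hlen]
      have : (m : ℝ) * B + B + 2 ≤ (B + 2) * (m + 1) := by nlinarith
      calc (B : ℝ) * (m * B + B + 2) ≤ B * ((B + 2) * (m + 1)) :=
            mul_le_mul_of_nonneg_left this (by linarith)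
        _ = _ := by ring
    have h5 : B * (B + 2) * (m + 1) ≤ A / 4 * ((m : ℝ) + 1) :=
      mul_le_mul_of_nonneg_right (by linarith) (by linarith)
    have h6 := h3.trans h5
    calc 2 * (B * Q * ((l.length : ℝ) + B + 2)) = Q * (2 * (B * ((l.length : ℝ) + B + 2))) := by
          ring
      _ ≤ Q * (2 * (A / 4 * ((m : ℝ) + 1))) :=
          mul_le_mul_of_nonneg_left (by linarith) hQ0.le
      _ = _ := by ring
  have h7 : Q * Phi θ (List.ofFn v ++ l) ≤ Q * (A * (m + 1)) := by
    refine h.trans ?_
    linarith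
  have h8 := le_of_mul_le_mul_left h7 hQ0
  have hA0 : 0 ≤ A := le_trans (by positivity) hA
  push_cast
  linarith

end Weight

end Pool.Agent.X123.TLC
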